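import Pool.Agent.HRP.Targets

/-! Few bad indices (BAD): union bound and double counting of a volume. -/

set_option autoImplicit false

open MeasureTheory Set
open scoped Pointwise

namespace Pool.Agent.HRP

open Pool.Agent.Rog (E SymBody)

namespace BAD_

/-- a finite family of measurable sets which covers every point at most `D` times -/
theorem mult {α : Type*} [MeasurableSpace α] (μ : Measure α) {κ : Type*} (s : Finset κ)
    (B : Set α) (Bp : κ → Set α) (D : ℝ) (hB : μ B ≠ ⊤)
    (hm : ∀ p ∈ s, MeasurableSet (Bp p))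
    (hD : ∀ u, (∑ p ∈ s, (Bp p).indicator (fun _ => (1 : ℝ)) u) ≤ D) :
    ∑ p ∈ s, μ.real (Bp p ∩ B) ≤ D * μ.real B := by
  have hfin : IsFiniteMeasure (μ.restrict B) :=
    ⟨by rw [Measure.restrict_apply_univ]; exact lt_top_iff_ne_top.mpr hB⟩
  have e1 : ∀ p ∈ s, μ.real (Bp p ∩ B) =
      ∫ u, (Bp p).indicator (fun _ => (1 : ℝ)) u ∂(μ.restrict B) := by
    intro p hp
    rw [integral_indicator_const (1 : ℝ) (hm p hp)]
    rw [measureReal_restrict_apply (hm p hp)]
    simp
  rw [Finset.sum_congr rfl e1, ← integral_finsetSum]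
  · have h2 : ∫ u, (∑ p ∈ s, (Bp p).indicator (fun _ => (1 : ℝ)) u) ∂(μ.restrict B) ≤
        ∫ _u, D ∂(μ.restrict B) := by
      refine integral_mono ?_ (integrable_const D) (fun u => hD u)
      exact integrable_finsetSum _ fun p hp =>
        (integrable_const (1 : ℝ)).indicator (hm p hp)
    refine h2.trans (le_of_eq ?_)
    rw [integral_const, smul_eq_mul, measureReal_restrict_apply_univ, mul_comm]
  · intro p hp
    exact (integrable_const (1 : ℝ)).indicator (hm p hp)

theorem image_eq {n : ℕ} (G : Set (E n)) (c : E n) (r : ℝ) :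
    (fun w => c + r • w) '' G = (fun v => c + v) '' (r • G) := by
  ext u
  simp only [mem_image, mem_smul_set]
  constructor
  · rintro ⟨w, hw, rfl⟩
    exact ⟨r • w, ⟨w, hw, rfl⟩, rfl⟩
  · rintro ⟨v, ⟨w, hw, rfl⟩, rfl⟩
    exact ⟨w, hw, rfl⟩

theorem vol_smul {n : ℕ} (G : Set (E n)) (r : ℝ) (hr : 0 ≤ r) :
    volume.real (r • G) = r ^ n * volume.real G := by
  unfold Measure.real
  rw [Measure.addHaar_smul, ENNReal.toReal_mul, ENNReal.toReal_ofReal (abs_nonneg _),
    abs_of_nonneg (pow_nonneg hr _)]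
  simp

theorem vol_image {n : ℕ} (G : Set (E n)) (c : E n) (r : ℝ) (hr : 0 ≤ r) :
    volume.real ((fun w => c + r • w) '' G) = r ^ n * volume.real G := by
  rw [image_eq, ← vol_smul G r hr]
  unfold Measure.real
  congr 1
  have : (fun v : E n => c + v) '' (r • G) = (fun v : E n => -c + v) ⁻¹' (r • G) := by
    exact Set.image_add_left
  rw [this, measure_preimage_add]

end BAD_

open Classical in
theorem p_BAD : T_BAD := by
  intro n M ι S _ _ c r t D hM hMpos hr ht hD hmult
  set V := volume.real M with hV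
  -- the bad indices
  set Bd : Finset ι := Finset.univ.filter (fun p => ∀ w ∈ M, ∃ σ, c σ p + r • w ∈ t • M) with hBd
  have hcard : (({p | ∀ w ∈ M, ∃ σ, c σ p + r • w ∈ t • M} : Set ι).ncard : ℝ) = Bd.card := by
    rw [← Set.ncard_coe_finset]
    congr 2
    ext p
    simp [hBd]
  rw [hcard]
  set Q : S → ι → Set (E n) := fun σ p => (fun w => c σ p + r • w) '' M with hQ
  have hQc : ∀ σ p, IsCompact (Q σ p) := by
    intro σ p
    exact hM.image (by fun_prop)
  have htM : IsCompact (t • M) := hM.smul t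
  have htMfin : volume (t • M) ≠ ⊤ := htM.measure_lt_top.ne
  have hvt : volume.real (t • M) = t ^ n * V := BAD_.vol_smul M t ht
  -- one bad index
  have hone : ∀ p ∈ Bd, r ^ n * V ≤ ∑ σ : S, volume.real (Q σ p ∩ t • M) := by
    intro p hp
    have hp' : ∀ w ∈ M, ∃ σ, c σ p + r • w ∈ t • M := (Finset.mem_filter.mp hp).2
    set G : S → Set (E n) := fun σ => {w | w ∈ M ∧ c σ p + r • w ∈ t • M} with hG
    have hsub : M ⊆ ⋃ σ ∈ (Finset.univ : Finset S), G σ := by
      intro w hw
      obtain ⟨σ, hσ⟩ := hp' w hw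
      simp only [mem_iUnion, Finset.mem_univ, exists_true_left]
      exact ⟨σ, hw, hσ⟩
    have hGM : ∀ σ, G σ ⊆ M := fun σ w hw => hw.1
    have hVle : V ≤ ∑ σ : S, volume.real (G σ) := by
      have h1 : V ≤ volume.real (⋃ σ ∈ (Finset.univ : Finset S), G σ) := by
        refine measureReal_mono hsub ?_
        refine ne_top_of_le_ne_top hM.measure_lt_top.ne (measure_mono ?_)
        exact iUnion₂_subset fun σ _ => hGM σ
      exact h1.trans (measureReal_biUnion_finset_le _ _)
    have hGQ : ∀ σ, r ^ n * volume.real (G σ) = volume.real (Q σ p ∩ t • M) := by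
      intro σ
      rw [← BAD_.vol_image (G σ) (c σ p) r hr.le]
      congr 1
      ext u
      simp only [hQ, hG, mem_image, mem_inter_iff, mem_ofPred_eq]
      constructor
      · rintro ⟨w, ⟨hw, hw'⟩, rfl⟩
        exact ⟨⟨w, hw, rfl⟩, hw'⟩
      · rintro ⟨⟨w, hw, rfl⟩, hu⟩
        exact ⟨w, ⟨hw, hu⟩, rfl⟩
    calc r ^ n * V ≤ r ^ n * ∑ σ : S, volume.real (G σ) :=
          mul_le_mul_of_nonneg_left hVle (pow_nonneg hr.le n)
      _ = ∑ σ : S, r ^ n * volume.real (G σ) := Finset.mul_sum _ _ _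
      _ = ∑ σ : S, volume.real (Q σ p ∩ t • M) := Finset.sum_congr rfl fun σ _ => hGQ σ
  -- double counting
  have hsum : ∀ σ : S, ∑ p ∈ Bd, volume.real (Q σ p ∩ t • M) ≤ D * volume.real (t • M) := by
    intro σ
    refine BAD_.mult volume Bd (t • M) (Q σ) D htMfin (fun p _ => (hQc σ p).measurableSet) ?_
    intro u
    have h1 : ∑ p ∈ Bd, (Q σ p).indicator (fun _ => (1 : ℝ)) u ≤
        ∑ p : ι, (Q σ p).indicator (fun _ => (1 : ℝ)) u := by
      refine Finset.sum_le_sum_of_subset_of_nonneg (Finset.subset_univ _) ?_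
      intro p _ _
      exact indicator_nonneg (fun _ _ => zero_le_one) u
    refine h1.trans (le_trans (le_of_eq ?_) (hmult σ u))
    have h2 : ∀ p : ι, (Q σ p).indicator (fun _ => (1 : ℝ)) u =
        if (∃ w ∈ M, u = c σ p + r • w) then (1 : ℝ) else 0 := by
      intro p
      by_cases h : ∃ w ∈ M, u = c σ p + r • w
      · rw [if_pos h, indicator_of_mem]
        obtain ⟨w, hw, hu⟩ := h
        exact ⟨w, hw, hu.symm⟩
      · rw [if_neg h, indicator_of_notMem]
        rintro ⟨w, hw, hu⟩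
        exact h ⟨w, hw, hu.symm⟩
    rw [Finset.sum_congr rfl fun p _ => h2 p, Finset.sum_boole]
    have h3 : ({p | ∃ w ∈ M, u = c σ p + r • w} : Set ι) =
        ((Finset.univ.filter (fun p => ∃ w ∈ M, u = c σ p + r • w) : Finset ι) : Set ι) := by
      ext p; simp
    rw [h3, Set.ncard_coe_finset]
  have htot : (Bd.card : ℝ) * (r ^ n * V) ≤ Fintype.card S * (D * (t ^ n * V)) := by
    calc (Bd.card : ℝ) * (r ^ n * V) = ∑ _p ∈ Bd, r ^ n * V := by
          rw [Finset.sum_const, nsmul_eq_mul]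
      _ ≤ ∑ p ∈ Bd, ∑ σ : S, volume.real (Q σ p ∩ t • M) := Finset.sum_le_sum hone
      _ = ∑ σ : S, ∑ p ∈ Bd, volume.real (Q σ p ∩ t • M) := Finset.sum_comm
      _ ≤ ∑ _σ : S, D * volume.real (t • M) := Finset.sum_le_sum fun σ _ => hsum σ
      _ = Fintype.card S * (D * (t ^ n * V)) := by
          rw [Finset.sum_const, nsmul_eq_mul, hvt]
          rfl
  have h5 : (Bd.card : ℝ) * r ^ n * V ≤ (Fintype.card S * D * t ^ n) * V := by
    calc (Bd.card : ℝ) * r ^ n * V = (Bd.card : ℝ) * (r ^ n * V) := by ring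
      _ ≤ Fintype.card S * (D * (t ^ n * V)) := htot
      _ = (Fintype.card S * D * t ^ n) * V := by ring
  exact le_of_mul_le_mul_right h5 hMpos

end Pool.Agent.HRP
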