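import Pool.Agent.HRP.Targets

/-! Boxes of homothets inside a compact set (helper4). -/

set_option autoImplicit false

open MeasureTheory Set
open scoped Pointwise

namespace Pool.Agent.HRP

open Pool.Agent.Rog (E SymBody)

namespace PRD_

open Classical in
/-- a finite family of measurable subsets of `B` which covers every point at most `D` times -/
lemma mult {α : Type*} [MeasurableSpace α] (μ : Measure α) {κ : Type*}
    (s : Finset κ) (B : Set α) (P : κ → Set α) (D : ℝ) (hD : 0 ≤ D) (hB : μ B ≠ ⊤)
    (hP : ∀ p ∈ s, MeasurableSet (P p)) (hsub : ∀ p ∈ s, P p ⊆ B)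
    (hcov : ∀ u, ((s.filter (fun p => u ∈ P p)).card : ℝ) ≤ D) :
    ∑ p ∈ s, μ.real (P p) ≤ D * μ.real B := by
  classical
  have h1 : ∑ p ∈ s, μ (P p) ≤ ENNReal.ofReal D * μ B := by
    have e1 : ∑ p ∈ s, μ (P p) = ∫⁻ u, ∑ p ∈ s, (P p).indicator (fun _ => (1 : ENNReal)) u ∂μ := by
      rw [lintegral_finsetSum s fun p hp => measurable_const.indicator (hP p hp)]
      refine Finset.sum_congr rfl fun p hp => ?_
      rw [lintegral_indicator (hP p hp), setLIntegral_one]
    have e2 : ∀ u, ∑ p ∈ s, (P p).indicator (fun _ => (1 : ENNReal)) u ≤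
        (toMeasurable μ B).indicator (fun _ => ENNReal.ofReal D) u := by
      intro u
      by_cases hu : u ∈ toMeasurable μ B
      · rw [indicator_of_mem hu]
        have e3 : ∑ p ∈ s, (P p).indicator (fun _ => (1 : ENNReal)) u =
            ((s.filter (fun p => u ∈ P p)).card : ENNReal) := by
          rw [Finset.card_filter]
          push_cast
          refine Finset.sum_congr rfl fun p _ => ?_
          by_cases hp : u ∈ P p
          · simp [hp]
          · simp [hp]
        rw [e3, ← ENNReal.ofReal_natCast]
        exact ENNReal.ofReal_le_ofReal (hcov u)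
      · rw [indicator_of_notMem hu]
        refine le_of_eq (Finset.sum_eq_zero fun p hp => ?_)
        have hn : u ∉ P p := fun h => hu (subset_toMeasurable μ B (hsub p hp h))
        simp [hn]
    calc ∑ p ∈ s, μ (P p) = ∫⁻ u, ∑ p ∈ s, (P p).indicator (fun _ => (1 : ENNReal)) u ∂μ := e1
      _ ≤ ∫⁻ u, (toMeasurable μ B).indicator (fun _ => ENNReal.ofReal D) u ∂μ :=
          lintegral_mono e2
      _ = ENNReal.ofReal D * μ B := by
          rw [lintegral_indicator (measurableSet_toMeasurable μ B), setLIntegral_const,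
            measure_toMeasurable]
  have hfin : ∀ p ∈ s, μ (P p) ≠ ⊤ := fun p hp =>
    ne_top_of_le_ne_top hB (measure_mono (hsub p hp))
  have h2 : (∑ p ∈ s, μ (P p)).toReal ≤ (ENNReal.ofReal D * μ B).toReal :=
    ENNReal.toReal_mono (ENNReal.mul_ne_top ENNReal.ofReal_ne_top hB) h1
  rw [ENNReal.toReal_sum hfin, ENNReal.toReal_mul, ENNReal.toReal_ofReal hD] at h2
  exact h2

/-- volume of a homothet -/
lemma vol_homothet {n : ℕ} (M : Set (E n)) (x : E n) {b : ℝ} (hb : 0 < b) :
    volume ((fun w => x + b • w) '' M) = ENNReal.ofReal (b ^ n) * volume M := by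
  have h1 : (fun w => x + b • w) '' M = (fun w => x + w) '' (b • M) := by
    rw [← image_smul, image_image]
  rw [h1, image_add_left, measure_preimage_add, Measure.addHaar_smul]
  congr 2
  rw [finrank_euclideanSpace_fin, abs_of_pos (pow_pos hb n)]

end PRD_

open PRD_ in
theorem p_PRD : T_PRD := by
  classical
  intro n m M ι _ x b C A hM hb hC hcov hA
  set good : Finset (Fin m → ι) := Finset.univ.filter
    (fun p => ∀ w : Fin m → E n, (∀ j, w j ∈ M) → (fun j => x (p j) + b • w j) ∈ A) with hgood
  set P : (Fin m → ι) → Set (Fin m → E n) := fun p =>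
    Set.pi univ (fun j => (fun w => x (p j) + b • w) '' M) with hPdef
  have hcard : ({p | ∀ w : Fin m → E n, (∀ j, w j ∈ M) → (fun j => x (p j) + b • w j) ∈ A} :
      Set (Fin m → ι)).ncard = good.card := by
    rw [← Set.ncard_coe_finset]
    congr 1
    ext p
    simp [hgood]
  have hcomp : ∀ y : E n, IsCompact ((fun w => y + b • w) '' M) := fun y =>
    hM.image (by fun_prop)
  have hPc : ∀ p, IsCompact (P p) := fun p => isCompact_univ_pi fun j => hcomp _
  have hvol : ∀ p, volume.real (P p) = (b ^ n * volume.real M) ^ m := by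
    intro p
    have h1 : volume (P p) = (ENNReal.ofReal (b ^ n) * volume M) ^ m := by
      simp only [hPdef]
      rw [volume_pi_pi]
      simp only [vol_homothet M _ hb, Finset.prod_const, Finset.card_univ, Fintype.card_fin]
    rw [measureReal_def, h1, ENNReal.toReal_pow, ENNReal.toReal_mul,
      ENNReal.toReal_ofReal (pow_pos hb n).le]
    rfl
  have hsub : ∀ p ∈ good, P p ⊆ A := by
    intro p hp u hu
    rw [hgood, Finset.mem_filter] at hp
    have h1 : ∀ j, ∃ w ∈ M, x (p j) + b • w = u j := fun j => hu j (mem_univ j)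
    choose w hw1 hw2 using h1
    have h2 := hp.2 w hw1
    have h3 : (fun j => x (p j) + b • w j) = u := funext hw2
    rwa [h3] at h2
  have hmul : ∀ u, ((good.filter (fun p => u ∈ P p)).card : ℝ) ≤ C ^ m := by
    intro u
    set S : Fin m → Finset ι := fun j => Finset.univ.filter (fun i => ∃ w ∈ M, u j = x i + b • w)
      with hS
    have h1 : good.filter (fun p => u ∈ P p) ⊆ Fintype.piFinset S := by
      intro p hp
      rw [Finset.mem_filter] at hp
      rw [Fintype.mem_piFinset]
      intro j
      simp only [hS, Finset.mem_filter, Finset.mem_univ, true_and]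
      obtain ⟨w, hw, hwu⟩ := hp.2 j (mem_univ j)
      exact ⟨w, hw, hwu.symm⟩
    have h2 : ∀ j, ((S j).card : ℝ) ≤ C := by
      intro j
      have h3 := hcov (u j)
      have h4 : ({i | ∃ w ∈ M, u j = x i + b • w} : Set ι).ncard = (S j).card := by
        rw [← Set.ncard_coe_finset]
        congr 1
        ext i
        simp [hS]
      rwa [h4] at h3
    calc ((good.filter (fun p => u ∈ P p)).card : ℝ) ≤ ((Fintype.piFinset S).card : ℝ) := by
          exact_mod_cast Finset.card_le_card h1
      _ = ∏ j, ((S j).card : ℝ) := by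
          rw [Fintype.card_piFinset]
          push_cast
          rfl
      _ ≤ ∏ _j : Fin m, C := Finset.prod_le_prod (fun j _ => by positivity) fun j _ => h2 j
      _ = C ^ m := by simp
  have key := mult (volume : Measure (Fin m → E n)) good A P (C ^ m) (pow_nonneg hC m)
    hA.measure_lt_top.ne (fun p _ => (hPc p).measurableSet) hsub hmul
  rw [Finset.sum_congr rfl fun p _ => hvol p, Finset.sum_const, nsmul_eq_mul] at key
  rw [hcard]
  exact key

end Pool.Agent.HRP
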