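import Mathlib
import Pool.Agent.Rog.Defs

/-!
# Random points of a centrally symmetric body and Hadwiger's covering problem (MP_eba1ef_gt)

Targets (jobs HRP-*).  `n` is the dimension.  The family `x : ι → E n`, `0 < b < 1`, describes the
homothets `x i + b M` of a symmetric set `M`, all contained in `M`.
-/

set_option autoImplicit false

open MeasureTheory Set
open scoped Pointwise

namespace Pool.Agent.HRP

open Pool.Agent.Rog (E SymBody)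

/-- Chains of homothets: inclusion and multiplicity. -/
def T_CHN : Prop := ∀ (n m : ℕ) (M : Set (E n)) (ι : Type) [Fintype ι] (x : ι → E n) (b C : ℝ)
  (s : Fin m → ℝ), (∀ u ∈ M, -u ∈ M) → 0 < b → 0 ≤ C → (∀ i, ∀ u ∈ M, x i + b • u ∈ M) →
  (∀ u : E n, (({i | ∃ w ∈ M, u = x i + b • w} : Set ι).ncard : ℝ) ≤ C) →
  (∀ j, s j = 1 ∨ s j = -1) →
  (∀ (p : Fin m → ι), ∀ w ∈ M, (∑ j : Fin m, (b ^ (j : ℕ) * s j) • x (p j)) + b ^ m • w ∈ M) ∧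
  ∀ u : E n, (({p | ∃ w ∈ M, u = (∑ j : Fin m, (b ^ (j : ℕ) * s j) • x (p j)) + b ^ m • w} :
    Set (Fin m → ι)).ncard : ℝ) ≤ C ^ m

/-- Few indices are bad: for a bad index every point of the homothet lies in `t M` for one of the
finitely many patterns `σ`. -/
def T_BAD : Prop := ∀ (n : ℕ) (M : Set (E n)) (ι S : Type) [Fintype ι] [Fintype S]
  (c : S → ι → E n) (r t D : ℝ), IsCompact M → 0 < volume.real M → 0 < r → 0 ≤ t → 0 ≤ D →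
  (∀ (σ : S) (u : E n), (({p | ∃ w ∈ M, u = c σ p + r • w} : Set ι).ncard : ℝ) ≤ D) →
  (({p | ∀ w ∈ M, ∃ σ, c σ p + r • w ∈ t • M} : Set ι).ncard : ℝ) * r ^ n ≤
    Fintype.card S * D * t ^ n

/-- If many products of homothets lie in `A`, then `A` has large volume. -/
def T_PRD : Prop := ∀ (n m : ℕ) (M : Set (E n)) (ι : Type) [Fintype ι] (x : ι → E n) (b C : ℝ)
  (A : Set (Fin m → E n)), IsCompact M → 0 < b → 0 ≤ C →
  (∀ u : E n, (({i | ∃ w ∈ M, u = x i + b • w} : Set ι).ncard : ℝ) ≤ C) → IsCompact A →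
  (({p | ∀ w : Fin m → E n, (∀ j, w j ∈ M) → (fun j => x (p j) + b • w j) ∈ A} :
    Set (Fin m → ι)).ncard : ℝ) * (b ^ n * volume.real M) ^ m ≤ C ^ m * volume.real A

/-- A point of the chain outside `t M` has a norming functional which nearly norms all terms. -/
def T_FUN : Prop := ∀ (n m : ℕ) (K : Set (E n)) (q b t : ℝ) (x u : Fin m → E n) (w : E n)
  (s : Fin m → ℝ), SymBody K → 0 < q → 0 < b → b < 1 → 0 ≤ t → 1 ≤ m →
  (∀ j, x j ∈ (q * (1 - b)) • K) → (∀ j, u j ∈ q • K) → w ∈ q • K →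
  (∀ j, s j = 1 ∨ s j = -1) →
  (∑ j : Fin m, (b ^ (j : ℕ) * s j) • x j) + b ^ m • w ∉ (t * q) • K →
  m * q * (1 - 2 * b) - q * (1 - t) / b ^ (m - 1) ≤ gauge K (∑ j : Fin m, s j • (x j + b • u j))

/-- The numerical part; `N = n m` in the notation of the blueprint, `k` is the length of a block. -/
def T_NUM : Prop := ∀ (d k m : ℕ) (Θ q a b t : ℝ), 2 ≤ d → 2 ≤ k → 1 ≤ m → 1 ≤ Θ →
  2 ^ (k * m) * (1 + k * Real.log (2 * Θ)) ≤ d → q = 1 - 1 / d → a = q / (1 + q) → b = a ^ k →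
  t = 1 - k * m * Real.log (2 * Θ) / d →
  1 / 2 ≤ q ∧ q < 1 ∧ 0 < a ∧ a < 1 / 2 ∧ 1 ≤ a ^ d * (Real.exp 1 * 2 ^ d) ∧ 1 ≤ 4 * q ^ d ∧
  0 ≤ t ∧ t ≤ 1 ∧ t ^ d * (2 * Θ) ^ (k * m) ≤ 1 ∧ b < 1 / 2 ∧
  (1 - 4 / 2 ^ k) * m ≤ m * q * (1 - 2 * b) - q * (1 - t) / b ^ (m - 1)

/-- The greedy algorithm. -/
def T_GRD : Prop := ∀ (n : ℕ) (M : Set (E n)) (X : Finset (E n)) (κ : ℝ), 0 < κ → X.Nonempty →
  (∀ U : Finset (E n), U ⊆ X → U.Nonempty →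
    ∃ z : E n, κ * U.card ≤ (({x | x ∈ U ∧ x - z ∈ M} : Set (E n)).ncard : ℝ)) →
  ∃ T : Finset (E n), (T.card : ℝ) ≤ 1 + Real.log X.card / κ ∧ ∀ x ∈ X, ∃ z ∈ T, x - z ∈ M

/-- The set of almost isometric copies of the basis of `ℓ_1^m`. -/
def AA {n : ℕ} (K : Set (E n)) (m : ℕ) (r : ℝ) : Set (Fin m → E n) :=
  {w | (∀ i, w i ∈ K) ∧ ∀ s : Fin m → ℝ, (∀ i, s i = 1 ∨ s i = -1) →
    r ≤ gauge K (∑ i, s i • w i)}

/-- It is compact. -/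
def T_CPT : Prop := ∀ (n m : ℕ) (K : Set (E n)) (r : ℝ), SymBody K → IsCompact (AA K m r)

/-- The theorem. -/
def T_TOP : Prop := ∀ (d k m : ℕ) (Θ : ℝ) (K : Set (E d)), 2 ≤ d → 2 ≤ k → 1 ≤ m → 1 ≤ Θ →
  2 ^ (k * m) * (1 + k * Real.log (2 * Θ)) ≤ d → SymBody K →
  volume.real (AA K m ((1 - 4 / 2 ^ k) * m)) ≤
    1 / (4 * (4 * Θ ^ k) ^ m) * volume.real K ^ m →
  ∃ T : Finset (E d), (T.card : ℝ) ≤ 1 + Real.exp 1 * 2 ^ d / Θ * (d * Real.log (4 * d + 1)) ∧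
    K ⊆ ⋃ t ∈ T, (fun x => t + x) '' interior K

end Pool.Agent.HRP
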