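import Pool.Agent.HRP.Targets

/-!
# Chains of homothets: inclusion and multiplicity (helper71)
-/

set_option autoImplicit false

open MeasureTheory Set
open scoped Pointwise

namespace Pool.Agent.HRP

open Pool.Agent.Rog (E SymBody)

namespace CHN_

/-- signs do not matter: inclusion -/
theorem sign_mem {n : ℕ} {M : Set (E n)} {ι : Type} {x : ι → E n} {b : ℝ}
    (hM : ∀ u ∈ M, -u ∈ M) (hx : ∀ i, ∀ u ∈ M, x i + b • u ∈ M) (s : ℝ) (hs : s = 1 ∨ s = -1)
    (i : ι) (w : E n) (hw : w ∈ M) : s • x i + b • w ∈ M := by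
  rcases hs with hs | hs
  · rw [hs, one_smul]
    exact hx i w hw
  · have h := hM _ (hx i (-w) (hM w hw))
    have e : s • x i + b • w = -(x i + b • (-w)) := by
      rw [hs, neg_smul, one_smul, smul_neg]
      abel
    rw [e]
    exact h

/-- signs do not matter: multiplicity -/
theorem sign_card {n : ℕ} {M : Set (E n)} {ι : Type} [Fintype ι] {x : ι → E n} {b C : ℝ}
    (hM : ∀ u ∈ M, -u ∈ M)
    (hC : ∀ u : E n, (({i | ∃ w ∈ M, u = x i + b • w} : Set ι).ncard : ℝ) ≤ C)
    (s : ℝ) (hs : s = 1 ∨ s = -1) (u : E n) :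
    (({i | ∃ w ∈ M, u = s • x i + b • w} : Set ι).ncard : ℝ) ≤ C := by
  rcases hs with hs | hs
  · have e : ({i | ∃ w ∈ M, u = s • x i + b • w} : Set ι) = {i | ∃ w ∈ M, u = x i + b • w} := by
      rw [hs]
      simp only [one_smul]
    rw [e]
    exact hC u
  · have e : ({i | ∃ w ∈ M, u = s • x i + b • w} : Set ι) ⊆ {i | ∃ w ∈ M, -u = x i + b • w} := by
      rintro i ⟨w, hw, he⟩
      refine ⟨-w, hM w hw, ?_⟩
      rw [he, hs, neg_smul, one_smul, smul_neg]
      abel
    have h1 : ({i | ∃ w ∈ M, u = s • x i + b • w} : Set ι).ncard ≤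
        ({i | ∃ w ∈ M, -u = x i + b • w} : Set ι).ncard :=
      Set.ncard_le_ncard e (Set.toFinite _)
    have h2 : (({i | ∃ w ∈ M, u = s • x i + b • w} : Set ι).ncard : ℝ) ≤
        (({i | ∃ w ∈ M, -u = x i + b • w} : Set ι).ncard : ℝ) := by exact_mod_cast h1
    exact h2.trans (hC (-u))

/-- splitting off the first term of the chain -/
theorem split {n m : ℕ} {ι : Type} (x : ι → E n) (b : ℝ) (s : Fin (m + 1) → ℝ)
    (p : Fin (m + 1) → ι) (w : E n) :
    (∑ j : Fin (m + 1), (b ^ (j : ℕ) * s j) • x (p j)) + b ^ (m + 1) • w =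
      s 0 • x (p 0) + b • ((∑ j : Fin m, (b ^ (j : ℕ) * Fin.tail s j) • x (Fin.tail p j)) +
        b ^ m • w) := by
  rw [Fin.sum_univ_succ, smul_add, Finset.smul_sum, smul_smul, ← pow_succ', add_assoc]
  congr 1
  · simp
  · congr 1
    refine Finset.sum_congr rfl fun j _ => ?_
    rw [smul_smul]
    congr 1
    rw [Fin.val_succ, pow_succ']
    unfold Fin.tail
    ring

end CHN_

open CHN_ in
theorem p_CHN : T_CHN := by
  intro n m
  induction m with
  | zero =>
    intro M ι _ x b C s hM hb hC hx hmult hs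
    refine ⟨?_, ?_⟩
    · intro p w hw
      simpa using hw
    · intro u
      have h1 : ({p | ∃ w ∈ M, u = (∑ j : Fin 0, (b ^ (j : ℕ) * s j) • x (p j)) + b ^ 0 • w} :
          Set (Fin 0 → ι)).ncard ≤ 1 := by
        rw [Set.ncard_le_one_iff]
        intro a c _ _
        exact Subsingleton.elim _ _
      have h2 := (Nat.cast_le (α := ℝ)).2 h1
      rw [Nat.cast_one] at h2
      exact h2.trans (le_of_eq (pow_zero C).symm)
  | succ m ih =>
    intro M ι _ x b C s hM hb hC hx hmult hs
    obtain ⟨ih1, ih2⟩ := ih M ι x b C (Fin.tail s) hM hb hC hx hmult (fun j => hs j.succ)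
    refine ⟨?_, ?_⟩
    · intro p w hw
      rw [split]
      exact sign_mem hM hx _ (hs 0) _ _ (ih1 (Fin.tail p) w hw)
    · intro u
      classical
      obtain ⟨S, hS⟩ : ∃ S : Set (Fin (m + 1) → ι), S = {p | ∃ w ∈ M,
        u = (∑ j : Fin (m + 1), (b ^ (j : ℕ) * s j) • x (p j)) + b ^ (m + 1) • w} := ⟨_, rfl⟩
      obtain ⟨G, hG⟩ : ∃ G : Set ι, G = {i | ∃ w ∈ M, u = s 0 • x i + b • w} := ⟨_, rfl⟩
      rw [← hS]
      have hGC : (G.ncard : ℝ) ≤ C := by
        rw [hG]
        exact sign_card hM hmult _ (hs 0) u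
      -- the fibres
      have hfib : ∀ i ∈ G, (({p | p ∈ S ∧ p 0 = i} : Set (Fin (m + 1) → ι)).ncard : ℝ) ≤ C ^ m := by
        intro i _
        have h2 := ih2 (b⁻¹ • (u - s 0 • x i))
        refine le_trans ?_ h2
        norm_cast
        refine Set.ncard_le_ncard_of_injOn (fun p => Fin.tail p) ?_ ?_ (Set.toFinite _)
        · rintro p ⟨hp, hp0⟩
          rw [hS] at hp
          obtain ⟨w, hw, he⟩ := hp
          refine ⟨w, hw, ?_⟩
          rw [split, hp0] at he
          rw [he, add_sub_cancel_left, smul_smul, inv_mul_cancel₀ hb.ne', one_smul]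
        · rintro p ⟨_, hp⟩ q ⟨_, hq⟩ hpq
          rw [← Fin.cons_self_tail p, ← Fin.cons_self_tail q, hp, hq]
          simp only at hpq
          rw [hpq]
      have hemp : ∀ p ∈ S, p 0 ∈ G := by
        intro p hp
        rw [hS] at hp
        obtain ⟨w, hw, he⟩ := hp
        rw [split] at he
        rw [hG]
        exact ⟨_, ih1 (Fin.tail p) w hw, he⟩
      have hcard : S.toFinset.card = ∑ i ∈ G.toFinset, (S.toFinset.filter (fun p => p 0 = i)).card := by
        apply Finset.card_eq_sum_card_fiberwise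
        intro p hp
        rw [Finset.mem_coe, Set.mem_toFinset] at hp ⊢
        exact hemp p hp
      have h3 : (S.ncard : ℝ) = ∑ i ∈ G.toFinset,
          (({p | p ∈ S ∧ p 0 = i} : Set (Fin (m + 1) → ι)).ncard : ℝ) := by
        rw [Set.ncard_eq_toFinset_card' S, hcard]
        push_cast
        refine Finset.sum_congr rfl fun i _ => ?_
        rw [Set.ncard_eq_toFinset_card' {p | p ∈ S ∧ p 0 = i}]
        congr 2
        ext p
        simp
      rw [h3]
      calc ∑ i ∈ G.toFinset, (({p | p ∈ S ∧ p 0 = i} : Set (Fin (m + 1) → ι)).ncard : ℝ)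
          ≤ ∑ i ∈ G.toFinset, C ^ m := by
            refine Finset.sum_le_sum fun i hi => ?_
            rw [Set.mem_toFinset] at hi
            exact hfib i hi
        _ = (G.ncard : ℝ) * C ^ m := by
            rw [Finset.sum_const, nsmul_eq_mul, Set.ncard_eq_toFinset_card' G]
        _ ≤ C * C ^ m := mul_le_mul_of_nonneg_right hGC (by positivity)
        _ = C ^ (m + 1) := by rw [pow_succ']

end Pool.Agent.HRP
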