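import Pool.Agent.HRP.Targets

/-!
# A set defined by the gauge is compact (helper71)
-/

set_option autoImplicit false

open MeasureTheory Set
open scoped Pointwise Topology

namespace Pool.Agent.HRP

open Pool.Agent.Rog (E SymBody)

namespace CPT_

theorem nhds_zero {n : ℕ} {K : Set (E n)} (hK : SymBody K) : K ∈ 𝓝 (0 : E n) := by
  obtain ⟨x, hx⟩ := hK.int
  have hx' : -x ∈ interior K := by
    have h1 : IsOpen ((fun y : E n => -y) ⁻¹' interior K) :=
      isOpen_interior.preimage continuous_neg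
    have h2 : ((fun y : E n => -y) ⁻¹' interior K) ⊆ K := by
      intro y hy
      have h3 := hK.symm _ (interior_subset hy)
      simpa using h3
    have h3 := interior_maximal h2 h1
    apply h3
    rw [mem_preimage, neg_neg]
    exact hx
  have h0 : (0 : E n) ∈ interior K := by
    have h4 := hK.cvx.interior hx hx' (by norm_num : (0 : ℝ) ≤ 1 / 2)
      (by norm_num : (0 : ℝ) ≤ 1 / 2) (by norm_num)
    have h5 : (1 / 2 : ℝ) • x + (1 / 2 : ℝ) • (-x) = 0 := by
      rw [smul_neg, add_neg_cancel]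
    rwa [h5] at h4
  exact mem_interior_iff_mem_nhds.1 h0

end CPT_

theorem p_CPT : T_CPT := by
  intro n m K r hK
  have hg : Continuous (gauge K) := continuous_gauge hK.cvx (CPT_.nhds_zero hK)
  have h1 : IsCompact {w : Fin m → E n | ∀ i, w i ∈ K} := by
    have h := isCompact_univ_pi (s := fun _ : Fin m => K) (fun _ => hK.cpt)
    have e : (univ.pi fun _ : Fin m => K) = {w : Fin m → E n | ∀ i, w i ∈ K} := by
      ext w
      simp
    rwa [e] at h
  have h2 : IsClosed {w : Fin m → E n | ∀ s : Fin m → ℝ, (∀ i, s i = 1 ∨ s i = -1) →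
      r ≤ gauge K (∑ i, s i • w i)} := by
    have e : {w : Fin m → E n | ∀ s : Fin m → ℝ, (∀ i, s i = 1 ∨ s i = -1) →
        r ≤ gauge K (∑ i, s i • w i)} = ⋂ s : Fin m → ℝ, ⋂ _ : (∀ i, s i = 1 ∨ s i = -1),
          {w : Fin m → E n | r ≤ gauge K (∑ i, s i • w i)} := by
      ext w
      simp
    rw [e]
    refine isClosed_iInter fun s => isClosed_iInter fun _ => ?_
    refine isClosed_le continuous_const (hg.comp ?_)
    fun_prop
  have h3 : AA K m r = {w : Fin m → E n | ∀ i, w i ∈ K} ∩ {w : Fin m → E n |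
      ∀ s : Fin m → ℝ, (∀ i, s i = 1 ∨ s i = -1) → r ≤ gauge K (∑ i, s i • w i)} := rfl
  rw [h3]
  exact h1.inter_right h2

end Pool.Agent.HRP
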