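import Pool.Agent.HRP.Targets

/-!
# FUN: norming functional of a chain point
-/

set_option autoImplicit false

open MeasureTheory Set
open scoped Pointwise

namespace Pool.Agent.HRP

open Pool.Agent.Rog (E SymBody)

namespace FUN_

variable {n : ℕ}

lemma zero_int {K : Set (E n)} (hK : SymBody K) : (0 : E n) ∈ interior K := by
  obtain ⟨c, hc⟩ := hK.int
  obtain ⟨U, hU, hUo, hcU⟩ := mem_interior.1 hc
  obtain ⟨r, hr, hb⟩ := Metric.isOpen_iff.1 hUo c hcU
  refine mem_interior.2 ⟨Metric.ball 0 r, ?_, Metric.isOpen_ball, Metric.mem_ball_self hr⟩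
  intro z hz
  rw [mem_ball_zero_iff] at hz
  have h1 : c + z ∈ K := by
    apply hU
    apply hb
    rw [Metric.mem_ball, dist_eq_norm, add_sub_cancel_left]
    exact hz
  have h2 : c - z ∈ K := by
    apply hU
    apply hb
    rw [Metric.mem_ball, dist_eq_norm, sub_sub_cancel_left, norm_neg]
    exact hz
  have h3 := hK.symm _ h2
  have h4 := hK.cvx h1 h3 (a := 1 / 2) (b := 1 / 2) (by norm_num) (by norm_num) (by norm_num)
  have h5 : (1 / 2 : ℝ) • (c + z) + (1 / 2 : ℝ) • (-(c - z)) = z := by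
    rw [← smul_add, show c + z + -(c - z) = (2 : ℝ) • z by rw [two_smul]; abel, smul_smul]
    norm_num
  rwa [h5] at h4

lemma absorb {K : Set (E n)} (hK : SymBody K) : Absorbent ℝ K :=
  absorbent_nhds_zero (mem_interior_iff_mem_nhds.1 (zero_int hK))

lemma smul_mono {K : Set (E n)} (hK : SymBody K) {a b : ℝ} (ha : 0 ≤ a) (hab : a ≤ b) {v : E n}
    (hv : v ∈ a • K) : v ∈ b • K := by
  obtain ⟨k, hk, rfl⟩ := hv
  rcases eq_or_lt_of_le (ha.trans hab) with hb | hb
  · have : a = 0 := le_antisymm (hab.trans hb.symm.le) ha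
    refine ⟨k, hk, ?_⟩
    simp [this, ← hb]
  · refine ⟨(a / b) • k, ?_, ?_⟩
    · exact hK.cvx.smul_mem_of_zero_mem (interior_subset (zero_int hK)) hk
        ⟨by positivity, (div_le_one hb).2 hab⟩
    · change b • (a / b) • k = a • k
      rw [smul_smul, mul_div_cancel₀ _ hb.ne']

/-- the norming functional -/
lemma exists_fun {K : Set (E n)} (hK : SymBody K) (v : E n) :
    ∃ g : E n →ₗ[ℝ] ℝ, g v = gauge K v ∧ ∀ x, g x ≤ gauge K x := by
  have hH : ∀ c : ℝ, c • v = 0 → (RingHom.id ℝ) c • gauge K v = 0 := by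
    intro c hc
    rcases smul_eq_zero.1 hc with h | h
    · simp [h]
    · simp [h, gauge_zero]
  obtain ⟨g, hg1, hg2⟩ := exists_extension_of_le_sublinear
    (LinearPMap.mkSpanSingleton' v (gauge K v) hH) (gauge K)
    (fun c hc x => by
      have h := gauge_smul_of_nonneg (s := K) hc.le x
      rw [h, smul_eq_mul])
    (gauge_add_le hK.cvx (absorb hK))
    (by
      rintro ⟨x, hx⟩
      obtain ⟨c, rfl⟩ := Submodule.mem_span_singleton.1 hx
      rw [LinearPMap.mkSpanSingleton'_apply]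
      simp only [RingHom.id_apply, smul_eq_mul]
      rcases le_total 0 c with hc | hc
      · have h := gauge_smul_of_nonneg (s := K) hc v
        rw [h, smul_eq_mul]
      · exact (mul_nonpos_of_nonpos_of_nonneg hc (gauge_nonneg _)).trans (gauge_nonneg _))
  refine ⟨g, ?_, hg2⟩
  have h := hg1 ⟨v, Submodule.mem_span_singleton_self v⟩
  rw [LinearPMap.mkSpanSingleton'_apply_self] at h
  exact h

lemma le_of_mem {K : Set (E n)} {g : E n →ₗ[ℝ] ℝ} (hg : ∀ x, g x ≤ gauge K x) {a : ℝ} (ha : 0 ≤ a)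
    {x : E n} (hx : x ∈ a • K) : g x ≤ a := (hg x).trans (gauge_le_of_mem ha hx)

lemma neg_mem_smul {K : Set (E n)} (hK : SymBody K) {a : ℝ} {x : E n} (hx : x ∈ a • K) :
    -x ∈ a • K := by
  obtain ⟨k, hk, rfl⟩ := hx
  refine ⟨-k, hK.symm k hk, ?_⟩
  change a • -k = -(a • k)
  rw [smul_neg]

end FUN_

open FUN_

theorem p_FUN : T_FUN := by
  intro n m K q b t x u w s hK hq hb hb1 ht hm hx hu hw hs hv
  set v : E n := (∑ j : Fin m, (b ^ (j : ℕ) * s j) • x j) + b ^ m • w with hvdef
  obtain ⟨g, hgv, hg⟩ := exists_fun hK v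
  -- the norm of `v`
  have hNv : t * q ≤ g v := by
    rw [hgv]
    by_contra hlt
    push Not at hlt
    obtain ⟨ρ, hρ, hρt, hmem⟩ := exists_lt_of_gauge_lt (absorb hK) hlt
    exact hv (smul_mono hK hρ.le hρt.le hmem)
  have hgw : g w ≤ q := le_of_mem hg hq.le hw
  have hgx : ∀ j, s j * g (x j) ≤ q * (1 - b) := by
    intro j
    have h0 : 0 ≤ q * (1 - b) := mul_nonneg hq.le (by linarith)
    rcases hs j with h | h
    · rw [h, one_mul]
      exact le_of_mem hg h0 (hx j)
    · have h1 := le_of_mem hg h0 (neg_mem_smul hK (hx j))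
      rw [map_neg] at h1
      rw [h]
      linarith
  have hgu : ∀ j, -q ≤ s j * g (u j) := by
    intro j
    rcases hs j with h | h
    · have h1 := le_of_mem hg hq.le (neg_mem_smul hK (hu j))
      rw [map_neg] at h1
      rw [h]
      linarith
    · have h1 := le_of_mem hg hq.le (hu j)
      rw [h]
      linarith
  have hgvs : g v = (∑ j : Fin m, b ^ (j : ℕ) * (s j * g (x j))) + b ^ m * g w := by
    rw [hvdef, map_add, map_sum, map_smul, smul_eq_mul]
    congr 1
    refine Finset.sum_congr rfl fun j _ => ?_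
    rw [map_smul, smul_eq_mul]
    ring
  set e : Fin m → ℝ := fun j => q * (1 - b) - s j * g (x j) with he
  have he0 : ∀ j, 0 ≤ e j := fun j => sub_nonneg.2 (hgx j)
  have hgeom : (∑ j : Fin m, b ^ (j : ℕ)) * (1 - b) = 1 - b ^ m := by
    rw [Fin.sum_univ_eq_sum_range (fun i => b ^ i) m, mul_comm]
    exact mul_neg_geom_sum b m
  have hsum : ∑ j : Fin m, b ^ (j : ℕ) * e j ≤ q * (1 - t) := by
    have h1 : ∑ j : Fin m, b ^ (j : ℕ) * e j = q * (1 - b ^ m) - (g v - b ^ m * g w) := by
      rw [← hgeom, hgvs, add_sub_cancel_right, he]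
      simp only [mul_sub, Finset.sum_sub_distrib]
      rw [← Finset.sum_mul, ← Finset.sum_mul]
      ring
    rw [h1]
    have h2 : b ^ m * g w ≤ b ^ m * q := mul_le_mul_of_nonneg_left hgw (by positivity)
    nlinarith
  have hsum2 : b ^ (m - 1) * ∑ j : Fin m, e j ≤ q * (1 - t) := by
    refine le_trans ?_ hsum
    rw [Finset.mul_sum]
    refine Finset.sum_le_sum fun j _ => mul_le_mul_of_nonneg_right ?_ (he0 j)
    exact pow_le_pow_of_le_one hb.le hb1.le (by have := j.2; omega)
  have hbm : 0 < b ^ (m - 1) := by positivity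
  have hsum3 : ∑ j : Fin m, e j ≤ q * (1 - t) / b ^ (m - 1) := by
    rw [le_div_iff₀ hbm, mul_comm]
    exact hsum2
  -- the value of `g` at the sum
  refine le_trans ?_ (hg _)
  have h4 : g (∑ j : Fin m, s j • (x j + b • u j)) =
      ∑ j : Fin m, (s j * g (x j) + b * (s j * g (u j))) := by
    rw [map_sum]
    refine Finset.sum_congr rfl fun j _ => ?_
    rw [map_smul, map_add, map_smul, smul_eq_mul, smul_eq_mul]
    ring
  rw [h4]
  have h5 : ∑ j : Fin m, (q * (1 - 2 * b) - e j) ≤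
      ∑ j : Fin m, (s j * g (x j) + b * (s j * g (u j))) := by
    refine Finset.sum_le_sum fun j _ => ?_
    have h6 : b * (-q) ≤ b * (s j * g (u j)) := mul_le_mul_of_nonneg_left (hgu j) hb.le
    have h7 : e j = q * (1 - b) - s j * g (x j) := rfl
    rw [h7]
    nlinarith
  refine le_trans ?_ h5
  rw [Finset.sum_sub_distrib, Finset.sum_const, Finset.card_univ, Fintype.card_fin,
    nsmul_eq_mul]
  nlinarith

end Pool.Agent.HRP
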