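import Pool.Agent.HRP.Targets

/-! The greedy algorithm (GRD). -/

set_option autoImplicit false

open MeasureTheory Set
open scoped Pointwise

namespace Pool.Agent.HRP

open Pool.Agent.Rog (E SymBody)

open Classical in
theorem p_GRD : T_GRD := by
  intro n M X κ hκ hX hyp
  have hXc : (0 : ℝ) < X.card := by exact_mod_cast hX.card_pos
  have hncard : ∀ (U : Finset (E n)) (z : E n),
      (({x | x ∈ U ∧ x - z ∈ M} : Set (E n)).ncard : ℝ) = ((U.filter (fun x => x - z ∈ M)).card : ℝ) := by
    intro U z
    rw [← Set.ncard_coe_finset]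
    congr 2
    ext x
    simp
  have hκ1 : κ ≤ 1 := by
    obtain ⟨z, hz⟩ := hyp X (Finset.Subset.refl X) hX
    rw [hncard] at hz
    have h1 : ((X.filter (fun x => x - z ∈ M)).card : ℝ) ≤ X.card := by
      exact_mod_cast Finset.card_filter_le _ _
    by_contra h
    rw [not_le] at h
    have : (X.card : ℝ) < κ * X.card := by nlinarith
    linarith
  have hmain : ∀ N : ℕ, ∃ T : Finset (E n), T.card ≤ N ∧
      ((X.filter (fun x => ∀ z ∈ T, x - z ∉ M)).card : ℝ) ≤ (1 - κ) ^ N * X.card := by
    intro N
    induction N with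
    | zero =>
      refine ⟨∅, by simp, ?_⟩
      simp
    | succ N ih =>
      obtain ⟨T, hT, hU⟩ := ih
      set U := X.filter (fun x => ∀ z ∈ T, x - z ∉ M) with hUdef
      rcases U.eq_empty_or_nonempty with h0 | hne
      · refine ⟨T, by omega, ?_⟩
        rw [← hUdef, h0]
        simp only [Finset.card_empty, Nat.cast_zero]
        exact mul_nonneg (pow_nonneg (by linarith) _) hXc.le
      · obtain ⟨z, hz⟩ := hyp U (Finset.filter_subset _ _) hne
        rw [hncard] at hz
        refine ⟨insert z T, (Finset.card_insert_le _ _).trans (by omega), ?_⟩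
        have e : X.filter (fun x => ∀ z' ∈ insert z T, x - z' ∉ M) =
            U.filter (fun x => ¬ (x - z ∈ M)) := by
          ext x
          simp only [Finset.mem_filter, Finset.mem_insert, forall_eq_or_imp, hUdef]
          tauto
        rw [e]
        have h1 : ((U.filter (fun x => x - z ∈ M)).card : ℝ) +
            ((U.filter (fun x => ¬ (x - z ∈ M))).card : ℝ) = U.card := by
          exact_mod_cast Finset.card_filter_add_card_filter_not (s := U) (fun x => x - z ∈ M)
        have h2 : ((U.filter (fun x => ¬ (x - z ∈ M))).card : ℝ) ≤ (1 - κ) * U.card := by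
          linarith
        calc ((U.filter (fun x => ¬ (x - z ∈ M))).card : ℝ) ≤ (1 - κ) * U.card := h2
          _ ≤ (1 - κ) * ((1 - κ) ^ N * X.card) :=
              mul_le_mul_of_nonneg_left hU (by linarith)
          _ = (1 - κ) ^ (N + 1) * X.card := by ring
  set N : ℕ := ⌊Real.log X.card / κ⌋₊ + 1 with hN
  obtain ⟨T, hT, hU⟩ := hmain N
  have hlog : 0 ≤ Real.log X.card := Real.log_natCast_nonneg _
  refine ⟨T, ?_, ?_⟩
  · have h1 : (T.card : ℝ) ≤ N := by exact_mod_cast hT
    have h2 : (⌊Real.log X.card / κ⌋₊ : ℝ) ≤ Real.log X.card / κ :=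
      Nat.floor_le (div_nonneg hlog hκ.le)
    rw [hN] at h1
    push_cast at h1
    linarith
  · have hlt : (1 - κ) ^ N * X.card < 1 := by
      have h1 : (1 - κ) ^ N ≤ Real.exp (-κ * N) := by
        have : 1 - κ ≤ Real.exp (-κ) := by
          have := Real.add_one_le_exp (-κ)
          linarith
        calc (1 - κ) ^ N ≤ (Real.exp (-κ)) ^ N := pow_le_pow_left₀ (by linarith) this N
          _ = Real.exp (-κ * N) := by rw [← Real.exp_nat_mul]; ring_nf
      have h2 : Real.log X.card < κ * N := by
        have h3 : Real.log X.card / κ < N := by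
          rw [hN]
          push_cast
          exact Nat.lt_floor_add_one _
        rw [div_lt_iff₀ hκ] at h3
        linarith
      have h3 : Real.exp (-κ * N) * X.card < 1 := by
        have h4 : Real.exp (-κ * N) < Real.exp (-Real.log X.card) :=
          Real.exp_lt_exp.mpr (by linarith)
        have h5 : Real.exp (-Real.log X.card) = (X.card : ℝ)⁻¹ := by
          rw [Real.exp_neg, Real.exp_log hXc]
        rw [h5] at h4
        calc Real.exp (-κ * N) * X.card < (X.card : ℝ)⁻¹ * X.card :=
              mul_lt_mul_of_pos_right h4 hXc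
          _ = 1 := inv_mul_cancel₀ hXc.ne'
      exact lt_of_le_of_lt (mul_le_mul_of_nonneg_right h1 hXc.le) h3
    have h0 : X.filter (fun x => ∀ z ∈ T, x - z ∉ M) = ∅ := by
      rw [← Finset.card_eq_zero]
      have : ((X.filter (fun x => ∀ z ∈ T, x - z ∉ M)).card : ℝ) < 1 := lt_of_le_of_lt hU hlt
      have h1 : (X.filter (fun x => ∀ z ∈ T, x - z ∉ M)).card < 1 := by exact_mod_cast this
      omega
    intro x hx
    by_contra hcon
    push Not at hcon
    have : x ∈ X.filter (fun x => ∀ z ∈ T, x - z ∉ M) := Finset.mem_filter.mpr ⟨hx, hcon⟩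
    rw [h0] at this
    exact absurd this (Finset.notMem_empty x)

end Pool.Agent.HRP
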