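import Pool.Agent.HRP.Targets

/-!
# Elementary inequalities (job HRP-NUM)
-/

set_option autoImplicit false

namespace Pool.Agent.HRP

namespace NUM_

/-- `1 / (2a)` -/
theorem two_a {D q a : ℝ} (hD : 2 ≤ D) (hq : q = 1 - 1 / D) (ha : a = q / (1 + q)) :
    2 * a * (1 + 1 / (2 * (D - 1))) = 1 := by
  have h1 : D - 1 ≠ 0 := by linarith
  have h2 : D ≠ 0 := by linarith
  have h3 : 1 + q ≠ 0 := by
    rw [hq]
    have : 1 / D ≤ 1 := by
      rw [div_le_one (by linarith)]
      linarith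
    linarith
  have h4 : q * D = D - 1 := by
    rw [hq]
    field_simp
  have h5 : 2 * a * (1 + 1 / (2 * (D - 1))) = 2 * q / (1 + q) * ((2 * D - 1) / (2 * (D - 1))) := by
    rw [ha]
    field_simp
    ring
  have h6 : (1 + q) * D = 2 * D - 1 := by linarith
  rw [h5, div_mul_div_comm, div_eq_one_iff_eq (mul_ne_zero h3 (mul_ne_zero two_ne_zero h1)),
    ← h6, ← h4]
  ring

/-- powers of `1 / (2a)` -/
theorem pow_le {D : ℝ} (hD : 2 ≤ D) (e : ℕ) :
    (1 + 1 / (2 * (D - 1))) ^ e ≤ Real.exp (e / (2 * (D - 1))) := by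
  have h1 : 1 + 1 / (2 * (D - 1)) ≤ Real.exp (1 / (2 * (D - 1))) := by
    have := Real.add_one_le_exp (1 / (2 * (D - 1)))
    linarith
  have h2 : 0 ≤ 1 + 1 / (2 * (D - 1)) := by
    have : 0 ≤ 1 / (2 * (D - 1)) := div_nonneg zero_le_one (by linarith)
    linarith
  calc (1 + 1 / (2 * (D - 1))) ^ e ≤ Real.exp (1 / (2 * (D - 1))) ^ e := pow_le_pow_left₀ h2 h1 e
    _ = Real.exp (e / (2 * (D - 1))) := by
        rw [← Real.exp_nat_mul]
        congr 1
        ring

theorem exp_half : Real.exp (1 / 2) ≤ 2 := by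
  have h1 : Real.exp (1 / 2) ^ 2 = Real.exp 1 := by
    rw [← Real.exp_nat_mul]
    norm_num
  have h2 := Real.exp_one_lt_d9
  by_contra h
  push Not at h
  have h3 : (2 : ℝ) ^ 2 < Real.exp (1 / 2) ^ 2 := pow_lt_pow_left₀ h (by norm_num) (by norm_num)
  rw [h1] at h3
  norm_num at h3 h2
  linarith

theorem fin {m D W Q P L q b : ℝ} (hm : 0 < m) (hD : 0 < D) (hW : 0 < W)
    (hWQ : W ≤ Q) (hPQ : W * P = Q) (hH : Q * (1 + L) ≤ D) (hq : q = 1 - 1 / D)
    (hq1 : q ≤ 1) (hb0 : 0 ≤ b) (hb : b ≤ 1 / W) :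
    (1 - 4 / W) * m ≤ m * q * (1 - 2 * b) - m * L / D * (2 * P) := by
  have hq' : m * (1 - 1 / D - 2 / W) ≤ m * q * (1 - 2 * b) := by
    have h4 : 1 - 1 / D - 2 / W ≤ q * (1 - 2 * b) := by
      have h5 : q * (1 - 2 * b) = q - 2 * (q * b) := by ring
      have h6 : q * b ≤ 1 * b := mul_le_mul_of_nonneg_right hq1 hb0
      have h7 : 2 / W = 2 * (1 / W) := by ring
      rw [h5, h7, ← hq]
      linarith
    calc m * (1 - 1 / D - 2 / W) ≤ m * (q * (1 - 2 * b)) :=
          mul_le_mul_of_nonneg_left h4 hm.le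
      _ = m * q * (1 - 2 * b) := by ring
  have h4 : m * (1 / D) + m * L / D * (2 * P) ≤ m * (2 / W) := by
    have h6 : W * (1 + 2 * L * P) ≤ 2 * D := by
      have h8 : W * (1 + 2 * L * P) = W + 2 * L * Q := by
        rw [← hPQ]
        ring
      have h9 : Q * (1 + L) = Q + L * Q := by ring
      rw [h8]
      rw [h9] at hH
      linarith
    have h7 : 1 / D * (1 + 2 * L * P) ≤ 2 / W := by
      rw [one_div_mul_eq_div, div_le_div_iff₀ hD hW]
      linarith
    calc m * (1 / D) + m * L / D * (2 * P) = m * (1 / D * (1 + 2 * L * P)) := by ring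
      _ ≤ m * (2 / W) := mul_le_mul_of_nonneg_left h7 hm.le
  have h5 : m * (1 - 1 / D - 2 / W) - (m * (2 / W) - m * (1 / D)) = (1 - 4 / W) * m := by
    ring
  linarith

end NUM_

open NUM_ in
theorem p_NUM : T_NUM := by
  intro d k m Θ q a b t hd hk hm hΘ hH hq ha hb ht
  have hD : (2 : ℝ) ≤ d := by exact_mod_cast hd
  have hD0 : (0 : ℝ) < d := by linarith
  have hL : 0 < Real.log (2 * Θ) := Real.log_pos (by linarith)
  set L := Real.log (2 * Θ) with hLdef
  have hk' : (2 : ℝ) ≤ k := by exact_mod_cast hk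
  have hm' : (1 : ℝ) ≤ m := by exact_mod_cast hm
  have hkL : 0 < k * L := mul_pos (by linarith) hL
  have hP : (0 : ℝ) < 2 ^ (k * m) := by positivity
  have hdpow : (2 : ℝ) ^ (k * m) ≤ d := by
    refine le_trans ?_ hH
    nlinarith
  have hkm : (k : ℝ) * m ≤ d - 1 := by
    have h1 : k * m + 1 ≤ 2 ^ (k * m) := Nat.lt_two_pow_self
    have h2 : ((k * m + 1 : ℕ) : ℝ) ≤ ((2 ^ (k * m) : ℕ) : ℝ) := by exact_mod_cast h1
    push_cast at h2
    linarith
  have hinv : 1 / (d : ℝ) ≤ 1 / 2 := one_div_le_one_div_of_le (by norm_num) hD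
  have hinv0 : 0 < 1 / (d : ℝ) := by positivity
  have hq1 : 1 / 2 ≤ q := by linarith
  have hq2 : q < 1 := by linarith
  have ha0 : 0 < a := by
    rw [ha]
    exact div_pos (by linarith) (by linarith)
  have ha2 : a < 1 / 2 := by
    rw [ha, div_lt_div_iff₀ (by linarith) (by norm_num)]
    linarith
  have h2a := two_a hD hq ha
  set u := 1 + 1 / (2 * ((d : ℝ) - 1)) with hu
  have hu0 : 0 < u := by
    have : 0 < 1 / (2 * ((d : ℝ) - 1)) := div_pos one_pos (by linarith)
    linarith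
  have hX0 : 0 ≤ k * m * L := by positivity
  have hXd : k * m * L ≤ d := by
    have h1 : (m : ℝ) ≤ 2 ^ (k * m) := by
      have h2 : m ≤ 2 ^ (k * m) := by
        calc m ≤ k * m := Nat.le_mul_of_pos_left m (by omega)
          _ ≤ 2 ^ (k * m) := Nat.lt_two_pow_self.le
      exact_mod_cast h2
    calc k * m * L = m * (k * L) := by ring
      _ ≤ 2 ^ (k * m) * (k * L) := mul_le_mul_of_nonneg_right h1 hkL.le
      _ ≤ 2 ^ (k * m) * (1 + k * L) := mul_le_mul_of_nonneg_left (by linarith) hP.le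
      _ ≤ d := hH
  have ht0 : 0 ≤ t := by
    rw [ht]
    have : k * m * L / d ≤ 1 := (div_le_one hD0).2 hXd
    linarith
  have ht1 : t ≤ 1 := by
    rw [ht]
    have : 0 ≤ k * m * L / d := div_nonneg hX0 hD0.le
    linarith
  have hbk : b ≤ (1 / 2) ^ k := by
    rw [hb]
    exact pow_le_pow_left₀ ha0.le ha2.le k
  have hb0 : 0 < b := by
    rw [hb]
    positivity
  refine ⟨hq1, hq2, ha0, ha2, ?_, ?_, ht0, ht1, ?_, ?_, ?_⟩
  · have h1 : u ^ d ≤ Real.exp 1 := by
      refine (pow_le hD d).trans (Real.exp_le_exp.2 ?_)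
      rw [div_le_one (by linarith)]
      linarith
    calc (1 : ℝ) = (2 * a * u) ^ d := by rw [h2a, one_pow]
      _ = a ^ d * (u ^ d * 2 ^ d) := by
          rw [mul_pow, mul_pow]
          ring
      _ ≤ a ^ d * (Real.exp 1 * 2 ^ d) := by gcongr
  · have h1 := one_add_mul_self_le_rpow_one_add (s := -(1 / (d : ℝ))) (by linarith)
      (p := (d : ℝ) / 2) (by linarith)
    have h2 : 1 + (d : ℝ) / 2 * -(1 / (d : ℝ)) = 1 / 2 := by
      field_simp
      norm_num
    have h3 : 1 + -(1 / (d : ℝ)) = q := by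
      rw [hq]
      ring
    rw [h2, h3] at h1
    have h4 : (q ^ ((d : ℝ) / 2)) ^ 2 = q ^ d := by
      rw [← Real.rpow_natCast (q ^ ((d : ℝ) / 2)) 2, ← Real.rpow_mul (by linarith),
        ← Real.rpow_natCast q d]
      congr 1
      push_cast
      ring
    have h5 : (1 / 2 : ℝ) ^ 2 ≤ (q ^ ((d : ℝ) / 2)) ^ 2 := pow_le_pow_left₀ (by norm_num) h1 2
    rw [h4] at h5
    norm_num at h5
    linarith
  · have h1 : t ≤ Real.exp (-(k * m * L / d)) := by
      have := Real.add_one_le_exp (-(k * m * L / d))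
      rw [ht]
      linarith
    have h2 : t ^ d ≤ Real.exp (-(k * m * L)) := by
      refine (pow_le_pow_left₀ ht0 h1 d).trans (le_of_eq ?_)
      rw [← Real.exp_nat_mul]
      congr 1
      field_simp
    have h3 : (2 * Θ) ^ (k * m) = Real.exp (k * m * L) := by
      rw [show (k : ℝ) * m * L = ((k * m : ℕ) : ℝ) * L by push_cast; ring, Real.exp_nat_mul, hLdef,
        Real.exp_log (by linarith)]
    calc t ^ d * (2 * Θ) ^ (k * m) ≤ Real.exp (-(k * m * L)) * Real.exp (k * m * L) := by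
          rw [h3]
          exact mul_le_mul_of_nonneg_right h2 (Real.exp_pos _).le
      _ = 1 := by
          rw [← Real.exp_add]
          simp
  · rw [hb]
    have h1 : a ^ k ≤ a := pow_le_of_le_one ha0.le (by linarith) (by omega)
    linarith
  · -- the last inequality
    set P : ℝ := 2 ^ (k * (m - 1)) with hPdef
    have hP0 : 0 < P := by positivity
    have hPk : 2 ^ k * P = 2 ^ (k * m) := by
      rw [hPdef, ← pow_add]
      congr 1
      obtain ⟨m', rfl⟩ : ∃ m', m = m' + 1 := ⟨m - 1, by omega⟩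
      rw [Nat.add_sub_cancel]
      ring
    have hbm0 : 0 < b ^ (m - 1) := by positivity
    have h1 : 1 / b ^ (m - 1) ≤ 2 * P := by
      have h2 : u ^ (k * (m - 1)) ≤ 2 := by
        refine (pow_le hD _).trans ((Real.exp_le_exp.2 ?_).trans exp_half)
        rw [div_le_div_iff₀ (by linarith) (by norm_num)]
        have h3 : ((k * (m - 1) : ℕ) : ℝ) ≤ k * m := by
          have : k * (m - 1) ≤ k * m := Nat.mul_le_mul_left _ (by omega)
          exact_mod_cast this
        linarith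
      have h3 : b ^ (m - 1) * (P * u ^ (k * (m - 1))) = 1 := by
        rw [hb, ← pow_mul, hPdef, ← mul_pow, ← mul_pow, ← mul_assoc, mul_comm a 2, h2a, one_pow]
      rw [div_le_iff₀ hbm0]
      calc (1 : ℝ) = b ^ (m - 1) * (P * u ^ (k * (m - 1))) := h3.symm
        _ ≤ b ^ (m - 1) * (P * 2) := by gcongr
        _ = 2 * P * b ^ (m - 1) := by ring
    have h1t : 1 - t = k * m * L / d := by
      rw [ht]
      ring
    have h1t0 : 0 ≤ 1 - t := by linarith
    have h2 : q * (1 - t) / b ^ (m - 1) ≤ k * m * L / d * (2 * P) := by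
      rw [div_eq_mul_one_div, ← h1t]
      calc q * (1 - t) * (1 / b ^ (m - 1)) ≤ (1 - t) * (1 / b ^ (m - 1)) := by
            apply mul_le_mul_of_nonneg_right _ (by positivity)
            nlinarith
        _ ≤ (1 - t) * (2 * P) := mul_le_mul_of_nonneg_left h1 h1t0
    have h2k : (0 : ℝ) < 2 ^ k := by positivity
    have hbk' : b ≤ 1 / 2 ^ k := by
      rw [one_div, ← inv_pow, ← one_div]
      exact hbk
    have h5 : (2 : ℝ) ^ k ≤ 2 ^ (k * m) :=
      pow_le_pow_right₀ (by norm_num) (Nat.le_mul_of_pos_right k (by omega))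
    refine le_trans (fin (W := 2 ^ k) (Q := 2 ^ (k * m)) (P := P) (L := k * L) (by linarith) hD0
      h2k h5 hPk hH hq hq2.le hb0.le hbk') ?_
    have h6 : m * (k * L) / d * (2 * P) = k * m * L / d * (2 * P) := by ring
    rw [h6]
    linarith

end Pool.Agent.HRP
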