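import Mathlib
import Pool.Agent.HRP.Targets
import Pool.Agent.Rog.PACK
import Pool.Agent.Rog.MAXN

/-!
# Assembly
-/

set_option autoImplicit false

open MeasureTheory Set
open scoped Pointwise

namespace Pool.Agent.HRP

open Pool.Agent.Rog (E SymBody T_PACK T_MAXN p_PACK p_MAXN)

namespace TOP_

lemma comb {n m : ℕ} {K : Set (E n)} (hK : Convex ℝ K) (h0 : (0 : E n) ∈ K) (c : Fin m → ℝ)
    (hc : ∀ j, 0 ≤ c j) (v : Fin m → E n) (hv : ∀ j, v j ∈ K) :
    ∑ j, c j • v j ∈ (∑ j, c j) • K := by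
  rcases (Finset.sum_nonneg fun j _ => hc j : 0 ≤ ∑ j, c j).lt_or_eq with h | h
  · refine ⟨∑ j, (c j / ∑ i, c i) • v j, ?_, ?_⟩
    · refine hK.sum_mem (fun j _ => div_nonneg (hc j) h.le) ?_ (fun j _ => hv j)
      rw [← Finset.sum_div, div_self h.ne']
    · simp only
      rw [Finset.smul_sum]
      refine Finset.sum_congr rfl fun j _ => ?_
      rw [smul_smul, mul_div_cancel₀ _ h.ne']
  · have hz : ∀ j, c j = 0 := fun j =>
      (Finset.sum_eq_zero_iff_of_nonneg fun i _ => hc i).mp h.symm j (Finset.mem_univ j)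
    refine ⟨0, h0, ?_⟩
    simp [hz]

lemma symm_smul {n : ℕ} {K : Set (E n)} (hK : SymBody K) (q : ℝ) : ∀ u ∈ q • K, -u ∈ q • K := by
  rintro _ ⟨x, hx, rfl⟩
  exact ⟨-x, hK.symm x hx, by simp⟩

lemma geom {a q : ℝ} (hq : 0 < q) (ha : a = q / (1 + q)) (k : ℕ) :
    ∑ j : Fin k, a ^ (j : ℕ) * a = q * (1 - a ^ k) := by
  rw [Fin.sum_univ_eq_sum_range (fun j => a ^ j * a) k, ← Finset.sum_mul]
  have h1 : a ≠ 1 := by
    rw [ha]
    intro h
    rw [div_eq_one_iff_eq (by positivity)] at h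
    linarith
  have h2 : (∑ i ∈ Finset.range k, a ^ i) * (a - 1) = a ^ k - 1 := geom_sum_mul a k
  have h3 : a - 1 = -(1 / (1 + q)) := by
    rw [ha]
    field_simp
    ring
  have h4 : (∑ i ∈ Finset.range k, a ^ i) = (1 + q) * (1 - a ^ k) := by
    rw [h3] at h2
    have : (1 + q) ≠ 0 := by positivity
    field_simp at h2
    linarith
  rw [h4, ha]
  have : (1 + q) ≠ 0 := by positivity
  field_simp

/-- the sign of a Boolean -/
def sg (b : Bool) : ℝ := if b then 1 else -1

lemma sg_spec (b : Bool) : sg b = 1 ∨ sg b = -1 := by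
  cases b <;> simp [sg]

lemma zero_mem {n : ℕ} {K : Set (E n)} (hK : SymBody K) : (0 : E n) ∈ K :=
  Pool.Agent.Rog.MAXN_.zero_mem hK

lemma core (hCHN : T_CHN) (hBAD : T_BAD) (hPRD : T_PRD) (hFUN : T_FUN) (hCPT : T_CPT)
    (d k m : ℕ) (Θ q a b t : ℝ) (K : Set (E d)) (hk : 2 ≤ k) (hm : 1 ≤ m) (hΘ : 1 ≤ Θ)
    (hK : SymBody K)
    (hA : volume.real (AA K m ((1 - 4 / 2 ^ k) * m)) ≤
      1 / (4 * (4 * Θ ^ k) ^ m) * volume.real K ^ m)
    (ha : a = q / (1 + q)) (hb : b = a ^ k) (hq : 1 / 2 ≤ q) (hq1 : q < 1) (ha0 : 0 < a)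
    (ha1 : a < 1 / 2) (hqd : 1 ≤ 4 * q ^ d) (ht0 : 0 ≤ t)
    (htd : t ^ d * (2 * Θ) ^ (k * m) ≤ 1) (hb1 : b < 1 / 2)
    (hnum : (1 - 4 / 2 ^ k) * m ≤ m * q * (1 - 2 * b) - q * (1 - t) / b ^ (m - 1))
    (U : Finset (E d)) (hU : U.Nonempty) (hUK : ∀ x ∈ U, x ∈ K)
    (hcount : ∀ z : E d, (({x | x ∈ U ∧ x - z ∈ q • K} : Set (E d)).ncard : ℝ) ≤
      Θ * a ^ d * U.card) : False := by
  classical
  set M : Set (E d) := q • K with hM
  have hq0 : 0 < q := by linarith
  have h0K := zero_mem hK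
  have hMc : IsCompact M := hK.cpt.smul q
  have hMs : ∀ u ∈ M, -u ∈ M := symm_smul hK q
  have hb0 : 0 < b := by rw [hb]; positivity
  have hKpos : 0 < volume.real K := by
    rw [measureReal_def]
    refine ENNReal.toReal_pos ?_ hK.cpt.measure_lt_top.ne
    intro h
    exact (isOpen_interior.measure_pos volume hK.int).ne' (measure_mono_null interior_subset h)
  have hMvol : volume.real M = q ^ d * volume.real K := by
    rw [hM, measureReal_def, Measure.addHaar_smul, ENNReal.toReal_mul, measureReal_def]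
    rw [finrank_euclideanSpace_fin, abs_of_nonneg (by positivity),
      ENNReal.toReal_ofReal (by positivity)]
  have hMpos : 0 < volume.real M := by rw [hMvol]; positivity
  set Z : ℝ := (U.card : ℝ) with hZ
  have hZ0 : 0 < Z := by
    rw [hZ]
    exact_mod_cast hU.card_pos
  set C : ℝ := Θ * a ^ d * Z with hC
  have hC0 : 0 ≤ C := by positivity
  have hMK : M ⊆ K := by
    rintro _ ⟨x, hx, rfl⟩
    have := hK.cvx hx h0K hq0.le (by linarith : (0 : ℝ) ≤ 1 - q) (by ring)
    simpa using this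
  -- first chain
  have hincl : ∀ i : U, ∀ u ∈ M, a • (i : E d) + a • u ∈ M := by
    rintro i _ ⟨x, hx, rfl⟩
    have h1 : (i : E d) + q • x ∈ (1 + q) • K := by
      rw [hK.cvx.add_smul zero_le_one hq0.le]
      exact add_mem_add (by simpa using hUK i i.2) (smul_mem_smul_set hx)
    obtain ⟨y, hy, hye⟩ := h1
    refine ⟨y, hy, ?_⟩
    simp only at hye ⊢
    rw [← smul_add, ← hye, smul_smul, ha]
    congr 1
    field_simp
  have hc1 : ∀ u : E d, (({i | ∃ w ∈ M, u = a • (i : E d) + a • w} : Set U).ncard : ℝ) ≤ C := by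
    intro u
    refine le_trans ?_ (hcount (a⁻¹ • u))
    have h1 : (({i | ∃ w ∈ M, u = a • (i : E d) + a • w} : Set U).ncard) =
        (((fun i : U => (i : E d)) '' {i | ∃ w ∈ M, u = a • (i : E d) + a • w})).ncard :=
      (Set.ncard_image_of_injective _ Subtype.val_injective).symm
    rw [h1]
    refine Nat.cast_le.mpr (Set.ncard_le_ncard ?_ ?_)
    · rintro _ ⟨i, ⟨w, hw, hu⟩, rfl⟩
      refine ⟨i.2, ?_⟩
      have : (i : E d) - a⁻¹ • u = -w := by
        rw [hu, smul_add, smul_smul, smul_smul, inv_mul_cancel₀ ha0.ne', one_smul, one_smul]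
        abel
      simp only
      rw [this]
      exact hMs w hw
    · exact U.finite_toSet.subset (fun x hx => hx.1)
  obtain ⟨h1i, h1c⟩ := hCHN d k M U (fun i => a • (i : E d)) a C (fun _ => 1) hMs ha0 hC0 hincl
    hc1 (fun _ => Or.inl rfl)
  set B : (Fin k → U) → E d := fun p => ∑ j : Fin k, (a ^ (j : ℕ) * 1) • (a • (p j : E d))
    with hB
  have hBi : ∀ (p : Fin k → U), ∀ w ∈ M, B p + b • w ∈ M := by
    intro p w hw
    rw [hb]
    exact h1i p w hw
  have hBc : ∀ u : E d, (({p | ∃ w ∈ M, u = B p + b • w} : Set (Fin k → U)).ncard : ℝ) ≤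
      C ^ k := by
    intro u
    rw [hb]
    exact h1c u
  have hBK : ∀ p : Fin k → U, B p ∈ (q * (1 - b)) • K := by
    intro p
    have := comb hK.cvx h0K (fun j : Fin k => a ^ (j : ℕ) * a) (fun j => by positivity)
      (fun j => (p j : E d)) (fun j => hUK _ (p j).2)
    rw [geom hq0 ha k, ← hb] at this
    rw [hB]
    convert this using 2 with j
    rw [smul_smul, mul_one]
  -- second chain
  have h2 : ∀ s : Fin m → ℝ, (∀ j, s j = 1 ∨ s j = -1) → _ := fun s hs =>
    hCHN d m M (Fin k → U) B b (C ^ k) s hMs hb0 (by positivity) hBi hBc hs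
  set cc : (Fin m → Bool) → (Fin m → Fin k → U) → E d := fun σ p =>
    ∑ j : Fin m, (b ^ (j : ℕ) * sg (σ j)) • B (p j) with hcc
  have hbad := hBAD d M (Fin m → Fin k → U) (Fin m → Bool) cc (b ^ m) t ((C ^ k) ^ m) hMc hMpos
    (by positivity) ht0 (by positivity)
    (fun σ u => (h2 (fun j => sg (σ j)) (fun j => sg_spec _)).2 u)
  set r : ℝ := (1 - 4 / 2 ^ k) * m with hr
  have hAc : IsCompact (AA K m r) := hCPT d m K r hK
  have hgood := hPRD d m M (Fin k → U) B b (C ^ k) (AA K m r) hMc hb0 (by positivity) hBc hAc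
  set bad : Set (Fin m → Fin k → U) := {p | ∀ w ∈ M, ∃ σ, cc σ p + b ^ m • w ∈ t • M} with hbaddef
  set good : Set (Fin m → Fin k → U) := {p | ∀ w : Fin m → E d, (∀ j, w j ∈ M) →
    (fun j => B (p j) + b • w j) ∈ AA K m r} with hgooddef
  have hcov : (univ : Set (Fin m → Fin k → U)) ⊆ bad ∪ good := by
    intro p _
    by_cases hp : p ∈ bad
    · exact Or.inl hp
    refine Or.inr ?_
    rw [hbaddef] at hp
    simp only [mem_ofPred_eq, not_forall, not_exists] at hp
    obtain ⟨w, hw, hw2⟩ := hp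
    intro u hu
    refine ⟨fun j => hMK (hBi (p j) (u j) (hu j)), fun s hs => ?_⟩
    set σ : Fin m → Bool := fun j => decide (s j = 1) with hσ
    have hσs : ∀ j, sg (σ j) = s j := by
      intro j
      rcases hs j with h | h
      · simp [sg, hσ, h]
      · have : s j ≠ 1 := by rw [h]; norm_num
        simp [sg, hσ, this, h]
        intro h'
        exact absurd h' (by norm_num)
    have h3 : (∑ j : Fin m, (b ^ (j : ℕ) * s j) • B (p j)) + b ^ m • w ∉ (t * q) • K := by
      have := hw2 σ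
      rw [hcc] at this
      simp only [hσs] at this
      rw [hM, smul_smul] at this
      exact this
    refine hnum.trans ?_
    exact hFUN d m K q b t (fun j => B (p j)) u w s hK hq0 hb0 (by linarith) ht0 hm
      (fun j => hBK (p j)) hu hw hs h3
  have hcard : Z ^ (k * m) ≤ (bad.ncard : ℝ) + good.ncard := by
    have h3 : (univ : Set (Fin m → Fin k → U)).ncard ≤ bad.ncard + good.ncard :=
      (Set.ncard_le_ncard hcov (Set.toFinite _)).trans (Set.ncard_union_le _ _)
    rw [Set.ncard_univ, Nat.card_eq_fintype_card] at h3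
    simp only [Fintype.card_fun, Fintype.card_fin, Fintype.card_coe] at h3
    rw [← pow_mul] at h3
    rw [hZ]
    exact_mod_cast h3
  -- the numbers
  have hD : (C ^ k) ^ m = Θ ^ (k * m) * (b ^ m) ^ d * Z ^ (k * m) := by
    rw [← pow_mul, hC, mul_pow, mul_pow, hb]
    congr 2
    rw [← pow_mul, ← pow_mul, ← pow_mul]
    congr 1
    ring
  have hZk : 0 < Z ^ (k * m) := by positivity
  have hbad2 : (bad.ncard : ℝ) ≤ Z ^ (k * m) / 2 := by
    have hbm : 0 < (b ^ m) ^ d := by positivity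
    rw [hD, Fintype.card_fun, Fintype.card_fin, Fintype.card_bool] at hbad
    have h3 : (bad.ncard : ℝ) * (b ^ m) ^ d ≤
        (2 ^ m * Θ ^ (k * m) * t ^ d * Z ^ (k * m)) * (b ^ m) ^ d := by
      refine hbad.trans (le_of_eq ?_)
      push_cast
      ring
    have h4 := le_of_mul_le_mul_right h3 hbm
    have h5 : 2 ^ m * Θ ^ (k * m) * t ^ d ≤ 1 / 2 := by
      rw [mul_pow] at htd
      have h6 : (2 : ℝ) ^ (m + 1) ≤ 2 ^ (k * m) := by
        refine pow_le_pow_right₀ (by norm_num) ?_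
        nlinarith
      have h7 : 0 ≤ t ^ d * Θ ^ (k * m) := by positivity
      have h8 : t ^ d * Θ ^ (k * m) * 2 ^ (m + 1) ≤ 1 := by
        calc t ^ d * Θ ^ (k * m) * 2 ^ (m + 1) ≤ t ^ d * Θ ^ (k * m) * 2 ^ (k * m) :=
              mul_le_mul_of_nonneg_left h6 h7
          _ = t ^ d * (2 ^ (k * m) * Θ ^ (k * m)) := by ring
          _ ≤ 1 := htd
      rw [pow_succ] at h8
      nlinarith
    calc (bad.ncard : ℝ) ≤ 2 ^ m * Θ ^ (k * m) * t ^ d * Z ^ (k * m) := h4
      _ ≤ 1 / 2 * Z ^ (k * m) := mul_le_mul_of_nonneg_right h5 hZk.le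
      _ = _ := by ring
  have hgood2 : (good.ncard : ℝ) ≤ Z ^ (k * m) / 4 := by
    have h3 : (good.ncard : ℝ) * (b ^ d * volume.real M) ^ m ≤
        Θ ^ (k * m) * (b ^ m) ^ d * Z ^ (k * m) *
          (1 / (4 * (4 * Θ ^ k) ^ m) * volume.real K ^ m) := by
      refine hgood.trans ?_
      rw [hD]
      exact mul_le_mul_of_nonneg_left hA (by positivity)
    rw [hMvol] at h3
    have hV : 0 < (b ^ m) ^ d * volume.real K ^ m := by positivity
    have h4 : (good.ncard : ℝ) * (q ^ d) ^ m * ((b ^ m) ^ d * volume.real K ^ m) ≤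
        Z ^ (k * m) / (4 * 4 ^ m) * ((b ^ m) ^ d * volume.real K ^ m) := by
      calc (good.ncard : ℝ) * (q ^ d) ^ m * ((b ^ m) ^ d * volume.real K ^ m)
          = (good.ncard : ℝ) * (b ^ d * (q ^ d * volume.real K)) ^ m := by
            rw [mul_pow, mul_pow]
            have : (b ^ m) ^ d = (b ^ d) ^ m := by rw [← pow_mul, ← pow_mul, mul_comm]
            rw [this]
            ring
        _ ≤ _ := h3
        _ = _ := by
            rw [mul_pow 4 (Θ ^ k) m, pow_mul Θ k m]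
            field_simp
    have h5 := le_of_mul_le_mul_right h4 hV
    have h6 : 1 ≤ (4 * q ^ d) ^ m := one_le_pow₀ hqd
    calc (good.ncard : ℝ) ≤ good.ncard * (4 * q ^ d) ^ m :=
          le_mul_of_one_le_right (Nat.cast_nonneg _) h6
      _ = (good.ncard * (q ^ d) ^ m) * 4 ^ m := by rw [mul_pow]; ring
      _ ≤ (Z ^ (k * m) / (4 * 4 ^ m)) * 4 ^ m := mul_le_mul_of_nonneg_right h5 (by positivity)
      _ = Z ^ (k * m) / 4 := by field_simp
  linarith

end TOP_

open TOP_ in
theorem p_TOP (hCHN : T_CHN) (hBAD : T_BAD) (hPRD : T_PRD) (hFUN : T_FUN) (hNUM : T_NUM)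
    (hGRD : T_GRD) (hCPT : T_CPT) : T_TOP := by
  classical
  intro d k m Θ K hd hk hm hΘ hN hK hA
  obtain ⟨hq, hq1, ha0, ha1, had, hqd, ht0, ht1, htd, hb1, hnum⟩ :=
    hNUM d k m Θ _ _ _ _ hd hk hm hΘ hN rfl rfl rfl rfl
  set q : ℝ := 1 - 1 / d with hqdef
  set a : ℝ := q / (1 + q) with hadef
  have hd0 : (0 : ℝ) < d := by
    have : (2 : ℝ) ≤ d := by exact_mod_cast hd
    linarith
  have hr : (0 : ℝ) < 1 / (2 * d) := by positivity
  obtain ⟨X, hX1, hX2, hX3⟩ := p_MAXN p_PACK d K K (1 / (2 * d)) hK subset_rfl hr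
  have hXc : (X.card : ℝ) ≤ (4 * d + 1) ^ d := by
    have := p_PACK d K X 0 1 (1 / (2 * d)) hK hr zero_le_one (fun x hx => by
      rw [sub_zero, one_smul]; exact hX1 x hx) hX2
    refine this.trans (le_of_eq ?_)
    congr 1
    field_simp
    ring
  have hXne : X.Nonempty := by
    obtain ⟨x, hx, _⟩ := hX3 0 (zero_mem hK)
    exact ⟨x, hx⟩
  set κ : ℝ := Θ * a ^ d with hκ
  have hκ0 : 0 < κ := by positivity
  obtain ⟨T, hT, hTc⟩ := hGRD d (q • K) X κ hκ0 hXne (by
    intro U hUX hU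
    by_contra hcon
    push Not at hcon
    exact core hCHN hBAD hPRD hFUN hCPT d k m Θ q a _ _ K hk hm hΘ hK hA rfl rfl hq hq1 ha0 ha1
      hqd ht0 htd hb1 hnum U hU (fun x hx => hX1 x (hUX hx)) (fun z => (hcon z).le))
  refine ⟨T, ?_, ?_⟩
  · have hlogX : Real.log X.card ≤ d * Real.log (4 * d + 1) := by
      rw [← Real.log_pow]
      exact Real.log_le_log (by exact_mod_cast hXne.card_pos) hXc
    have hlog0 : 0 ≤ Real.log X.card := Real.log_natCast_nonneg _
    have h1 : 1 / κ ≤ Real.exp 1 * 2 ^ d / Θ := by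
      rw [hκ, div_le_div_iff₀ hκ0 (by linarith)]
      have : 1 * Θ ≤ (a ^ d * (Real.exp 1 * 2 ^ d)) * Θ :=
        mul_le_mul_of_nonneg_right had (by linarith)
      linarith
    calc (T.card : ℝ) ≤ 1 + Real.log X.card / κ := hT
      _ = 1 + (1 / κ) * Real.log X.card := by ring
      _ ≤ 1 + Real.exp 1 * 2 ^ d / Θ * (d * Real.log (4 * d + 1)) := by
          have := mul_le_mul h1 hlogX hlog0 (by positivity)
          linarith
  · intro z hz
    obtain ⟨x, hx, hzx⟩ := hX3 z hz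
    obtain ⟨y, hy, hxy⟩ := hTc x hx
    simp only [mem_iUnion, exists_prop]
    refine ⟨y, hy, z - y, ?_, by simp⟩
    have h0i : (0 : E d) ∈ interior K := by
      obtain ⟨o, ho⟩ := hK.int
      have h1 : -o ∈ K := hK.symm o (interior_subset ho)
      have := hK.cvx.combo_interior_self_mem_interior ho h1 (by norm_num : (0 : ℝ) < 1 / 2)
        (by norm_num : (0 : ℝ) ≤ 1 / 2) (by norm_num)
      simpa using this
    have h1 : z - y ∈ (1 / (2 * d) + q) • K := by
      rw [hK.cvx.add_smul hr.le (by linarith)]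
      have := add_mem_add hzx hxy
      simpa using this
    obtain ⟨w, hw, hwe⟩ := h1
    simp only at hwe
    rw [← hwe]
    have hlt : 1 / (2 * d) + q < 1 := by
      rw [hqdef]
      have : (1 : ℝ) / (2 * d) < 1 / d := by
        rw [div_lt_div_iff₀ (by positivity) hd0]
        linarith
      linarith
    have := hK.cvx.combo_interior_self_mem_interior h0i hw (sub_pos.mpr hlt)
      (by positivity : (0 : ℝ) ≤ 1 / (2 * d) + q) (by ring)
    simpa using this

end Pool.Agent.HRP
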